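import Mathlib
import Pool.Agent.MP_a2aa7d_nt.h32.Quart

set_option autoImplicit false

namespace Pool.Agent.Results.MP_a2aa7d_nt.DensityDichotomy

open Pool.Agent.MP_a2aa7d_nt.H32 NumberField Filter Topology

/-- Among the complete intersections of `2n - 2` forms of positive bidegrees adding up to
`(n + 1, n + 1)` in `P^n x P^n`, those with a finite nonempty set of `K`-points have density 0. -/
theorem result (K : Type) [Field K] [NumberField K] (J : Type) [Fintype J] (ω : J → 𝓞 K)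
    (hω : ω ≠ 0) (n r : ℕ) (hr : r + 2 = 2 * n) (a b : Fin r → ℕ) (ha : ∀ i, 1 ≤ a i)
    (hb : ∀ i, 1 ≤ b i) (hsa : ∑ i, a i = n + 1) (hsb : ∑ i, b i = n + 1) :
    Tendsto (fun H : ℕ => (Set.ncard {t : Idx n a b × J → ℤ | (∀ k, |t k| ≤ H) ∧
      (pts fun i => ∑ j, (t (i, j) : K) * ω j).Finite ∧
      (pts fun i => ∑ j, (t (i, j) : K) * ω j).Nonempty} : ℝ) /
      (2 * H + 1) ^ Nat.card (Idx n a b × J)) atTop (𝓝 0) :=
  density ω hω n r hr a b ha hb hsa hsb

end Pool.Agent.Results.MP_a2aa7d_nt.DensityDichotomy
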