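import Mathlib
import Pool.Agent.MP_a2aa7d_nt.Clebsch

set_option autoImplicit false

namespace Pool.Agent.Results.MP_a2aa7d_nt.QuarticDichotomy

open Pool.Agent.MP_a2aa7d_nt

/-- Determinantal quartic surfaces that are p-adically close to the Hessian of a cubic surface have
no rational point or infinitely many. -/
theorem result :
    (∀ (K : Type) [Field K] [NumberField K], Odd (Module.finrank ℚ K) →
      ∀ (U : Fin 4 → Fin 4 → Fin 4 → ℤ) (π : ℤ), π ≠ 0 → 4 ∣ π →
        Odd (alt U 0 1 2) → Odd (alt U 0 1 3) → Odd (alt U 0 2 3) → Odd (alt U 1 2 3) →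
        {P : Projectivization K (Fin 4 → K) |
            qdet (fun a b c => cl a b c + π * U a b c) P.rep = 0} = ∅ ∨
          {P : Projectivization K (Fin 4 → K) |
            qdet (fun a b c => cl a b c + π * U a b c) P.rep = 0}.Infinite) ∧
    (∀ (K : Type) [Field K] [NumberField K] (p : ℕ), p.Prime →
      ∀ (k : Type) [Field k] (θ : NumberField.RingOfIntegers K →+* k), Function.Surjective θ →
        (p : k) = 0 → ∀ (S U : Fin 4 → Fin 4 → Fin 4 → ℤ) (π : ℤ), π ≠ 0 → (p : ℤ) ^ 2 ∣ π →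
        (∀ a b c, S a b c = S b a c) → (∀ a b c, S a b c = S b c a) → Good k S U →
        {P : Projectivization K (Fin 4 → K) |
            qdet (fun a b c => S a b c + π * U a b c) P.rep = 0} = ∅ ∨
          {P : Projectivization K (Fin 4 → K) |
            qdet (fun a b c => S a b c + π * U a b c) P.rep = 0}.Infinite) :=
  ⟨fun K _ _ hK U _ h0 h4 u1 u2 u3 u4 =>
      quartic_clebsch K (Nat.two_dvd_ne_zero.2 (Nat.odd_iff.1 hK)) U u1 u2 u3 u4 h0 h4 _ rfl,
    fun K _ _ _ hp k _ θ hθ hpk _ _ _ h0 hπ h1 h2 hG =>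
      quartic_general hp K k θ hθ hpk h1 h2 hG h0 hπ _ rfl⟩

end Pool.Agent.Results.MP_a2aa7d_nt.QuarticDichotomy
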