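import Mathlib
import Pool.Agent.MP_a2aa7d_nt.Main

set_option autoImplicit false

namespace Pool.Agent.Results.MP_a2aa7d_nt.WehlerLines

open Pool.Agent.MP_a2aa7d_nt

/-- A p-adically open family of (2,2,2) surfaces in the product of three projective lines with no
rational point or infinitely many. -/
theorem result :
    ∀ (K : Type) [Field K] [NumberField K], Odd (Module.finrank ℚ K) → ∀ p : ℕ, p.Prime →
      ∀ (T : Fin 2 → Fin 2 → Fin 2 → ℤ), ¬ IsSquare ((hdet T : ℤ) : ZMod p) →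
      ∀ (F : Fin 2 → Fin 2 → Fin 2 → Fin 2 → Fin 2 → Fin 2 → ℤ) (π : ℤ), π ≠ 0 →
        (p : ℤ) ^ 2 ∣ π →
        (∀ x y z : Fin 2 → K, x ≠ 0 → y ≠ 0 → z ≠ 0 → eqn T F π x y z = 0 →
          ¬ ∀ u, eqn T F π (x + u) y z = eqn T F π u y z ∧
            eqn T F π x (y + u) z = eqn T F π x u z ∧ eqn T F π x y (z + u) = eqn T F π x y u) →
      ∀ X : Set (Projectivization K (Fin 2 → K) × Projectivization K (Fin 2 → K) ×
          Projectivization K (Fin 2 → K)),
        X = {P | eqn T F π P.1.rep P.2.1.rep P.2.2.rep = 0} → X = ∅ ∨ X.Infinite :=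
  fun K _ _ hK _ hp T hT F _ h0 hπ hsm X hX =>
    triple hp T hT F h0 hπ K (Nat.two_dvd_ne_zero.2 (Nat.odd_iff.1 hK)) hsm X hX

end Pool.Agent.Results.MP_a2aa7d_nt.WehlerLines
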