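import Mathlib
import Pool.Agent.MP_a2aa7d_nt.Main

set_option autoImplicit false

namespace Pool.Agent.Results.MP_a2aa7d_nt.WehlerPlanes

open Pool.Agent.MP_a2aa7d_nt

/-- A p-adically open family of Wehler surfaces in the product of two projective planes with no
rational point or infinitely many. -/
theorem result :
    ∀ (K : Type) [Field K] [NumberField K], ¬ 3 ∣ Module.finrank ℚ K → ∀ p : ℕ, p.Prime →
      ∀ (C : Matrix (Fin 3) (Fin 3) ℤ), Irreducible (C.charpoly.map (Int.castRingHom (ZMod p))) →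
      ∀ (F : Fin 3 → Fin 3 → Fin 3 → Fin 3 → ℤ) (c π : ℤ), ¬ (p : ℤ) ∣ c → π ≠ 0 →
        (p : ℤ) ^ 2 ∣ π →
      ∀ X : Set (Projectivization K (Fin 3 → K) × Projectivization K (Fin 3 → K)),
        X = {P | bil 1 P.1.rep P.2.rep = 0 ∧ bil C P.1.rep P.2.rep ^ 2 =
          (π : K) ^ 2 * (c * bil (C * C) P.1.rep P.2.rep ^ 2 + p * biq F P.1.rep P.2.rep)} →
        X = ∅ ∨ X.Infinite :=
  fun K _ _ hK _ hp C hC F _ _ hc h0 hπ X hX => wehler hp C hC F hc h0 hπ K hK X hX

end Pool.Agent.Results.MP_a2aa7d_nt.WehlerPlanes
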